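import Pool.Agent.Lib.MP_72e2e6_nt.WP.La.Spec

/-!
# MP_72e2e6_nt, theorem T3 for odd characteristic, block La: the values of `w` at unramified points
-/

namespace Pool.Agent.MP72V

open Polynomial WeierstrassCurve
open Pool.Agent.MP72W (pmap)
open Pool.Agent.MP72P (EqN Kvs Kgs nm op rsH hP tac GFld Pls)
open Pool.Agent

open scoped Classical

private theorem fdtZero {K : Type} [Field K] (W : WeierstrassCurve K) {S L M : Type} [Field S]
    [Field L] [Field M] [Algebra K S] [Algebra K L] [Algebra K M] [Algebra S L] [Algebra S M]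
    [IsScalarTower K S L] [IsScalarTower K S M] (f : L →ₐ[S] M) :
    pmap W f (0 : (W⁄L).toAffine.Point) = 0 := rfl

private theorem fdtNsmul {K : Type} [Field K] (W : WeierstrassCurve K) {S L M : Type} [Field S]
    [Field L] [Field M] [Algebra K S] [Algebra K L] [Algebra K M] [Algebra S L] [Algebra S M]
    [IsScalarTower K S L] [IsScalarTower K S M] (f : L →ₐ[S] M) (n : ℕ)
    (P : (W⁄L).toAffine.Point) : pmap W f (n • P) = n • pmap W f P :=
  map_nsmul (pmap W f) n P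

theorem tFdT (h1 : S_Bas) (h2 : S_It) (h3 : S_Unw) (h4 : S_RsK) (h5 : S_UnT) : S_FdT := by
  intro p _ hp2 K _ _ W hW v Q ϖ R hLF hGd k R' P hR' hP w hw
  have hpp : p.Prime := Fact.out
  have h2K : (2 : K) ≠ 0 := by
    intro h
    have h' : ((2 : ℕ) : K) = 0 := by exact_mod_cast h
    have := (CharP.cast_eq_zero_iff K p 2).1 h'
    exact hp2 ((Nat.prime_dvd_prime_iff_eq hpp Nat.prime_two).1 this)
  obtain ⟨a, ha, hana, haK, hRsf, hval, hst, hpt⟩ := h4 p hp2 K v Q ϖ R hLF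
  have hWk : IsNf (fr p W k) := ((h1.2 K p W hW).1 k).1
  have hW0 : IsNf (fr p W 0) := ((h1.2 K p W hW).1 0).1
  have hRfix : ∀ g : Gal(Kvs v/v.Completion), MP72P.IsGeo p g →
      pmap (fr p W k) (g : Kvs v →ₐ[v.Completion] Kvs v) R' = R' := by
    intro g hg
    apply h5 p hp2 K W hW v Q ϖ R hLF hGd k R' g hg
    rw [hR'.1]
    rfl
  obtain ⟨R₀, hR₀⟩ := hpt (fr p W k) hWk R' hRfix
  obtain ⟨P₀, hP₀⟩ := hpt (fr p W k) hWk P hP
  obtain ⟨-, -, -, -, -, hB0⟩ := h1.1 K h2K (fr p W 0) hW0 (MP72P.Knr p v)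
  obtain ⟨-, hinj0, -⟩ := hB0 (MP72P.Knr p v) (Kvs v) (Algebra.ofId (MP72P.Knr p v) (Kvs v))
  obtain ⟨-, -, -, -, -, i6, -⟩ := h2 p hp2 K W hW (MP72P.Knr p v)
  obtain ⟨-, hVn⟩ := i6 k (MP72P.Knr p v) (Kvs v) (Algebra.ofId (MP72P.Knr p v) (Kvs v))
  have hIsR : IsR p W k R₀ := by
    refine ⟨?_, fun n hn h0 => hR'.2 n hn ?_⟩
    · apply hinj0
      rw [hVn, hR₀, hR'.1]
      rfl
    · rw [← hR₀, ← fdtNsmul, h0]
      rfl
  rw [← hR₀] at hw
  obtain ⟨r, z, hr, hz, hrz, hE⟩ := h3 p hp2 K W hW v hLF.na hGd (MP72P.Knr p v) a hana haK hRsf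
    (Kvs v) k R₀ P₀ hIsR w hw
  rw [hP₀] at hE
  obtain ⟨m, hm⟩ := hval z hz
  refine ⟨(r : Kvs v), r.2, fun h0 => hr (Subtype.ext h0), hE, m * ((p ^ k : ℕ) : ℤ), ?_,
    Dvd.intro_left m rfl⟩
  rw [← ha, hrz, hm, zpow_mul, zpow_natCast]

end Pool.Agent.MP72V
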