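import Pool.Agent.Lib.MP_72e2e6_nt.WP.La.Spec

/-!
# MP_72e2e6_nt, block La, module GdA: almost all places are places of good ordinary reduction
-/

namespace Pool.Agent.MP72V

open Polynomial WeierstrassCurve
open Pool.Agent.MP72P (Pls GFld)
open Pool.Agent

open scoped Classical

private theorem gdaMerge {K : Type} [Field K] (l : List (AbsoluteValue K ℝ)) :
    (∀ w ∈ l, w.IsNontrivial) → ∃ (m : ℕ) (av : Fin m → AbsoluteValue K ℝ), Pls av ∧
      ∀ w ∈ l, ∃ j, w.IsEquiv (av j) := by
  induction l with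
  | nil =>
    intro _
    refine ⟨0, fun j => j.elim0, ⟨fun j => j.elim0, fun j => j.elim0⟩, ?_⟩
    intro w hw
    simp at hw
  | cons w l ih =>
    intro h
    obtain ⟨m, av, hP, hl⟩ := ih fun w' hw' => h w' (List.mem_cons_of_mem _ hw')
    by_cases hw : ∃ j, w.IsEquiv (av j)
    · refine ⟨m, av, hP, ?_⟩
      intro w' hw'
      rcases List.mem_cons.1 hw' with h1 | h1
      · rw [h1]
        exact hw
      · exact hl w' h1
    · push Not at hw
      refine ⟨m + 1, Fin.cons w av, ⟨?_, ?_⟩, ?_⟩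
      · intro j
        refine Fin.cases ?_ (fun i => ?_) j
        · rw [Fin.cons_zero]
          exact h w List.mem_cons_self
        · rw [Fin.cons_succ]
          exact hP.ntr i
      · intro j j'
        refine Fin.cases ?_ (fun i => ?_) j
        · refine Fin.cases ?_ (fun i' => ?_) j'
          · intro h1
            exact absurd rfl h1
          · intro _
            rw [Fin.cons_zero, Fin.cons_succ]
            exact hw i'
        · refine Fin.cases ?_ (fun i' => ?_) j'
          · intro _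
            rw [Fin.cons_zero, Fin.cons_succ]
            exact fun h1 => hw i h1.symm
          · intro h1
            rw [Fin.cons_succ, Fin.cons_succ]
            exact hP.inq i i' fun h2 => h1 (by rw [h2])
      · intro w' hw'
        rcases List.mem_cons.1 hw' with h1 | h1
        · refine ⟨0, ?_⟩
          rw [h1, Fin.cons_zero]
          exact AbsoluteValue.IsEquiv.rfl
        · obtain ⟨j, hj⟩ := hl w' h1
          refine ⟨j.succ, ?_⟩
          rw [Fin.cons_succ]
          exact hj

private theorem gdaMany (h3 : MP72P.S_Alm) (p : ℕ) [Fact p.Prime] (K : Type) [Field K] [CharP K p]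
    (hK : GFld p K) (xs : List K) : (∀ x ∈ xs, x ≠ 0) →
    ∃ (m : ℕ) (av : Fin m → AbsoluteValue K ℝ), Pls av ∧ ∀ v : AbsoluteValue K ℝ,
      v.IsNontrivial → (∀ j, ¬ v.IsEquiv (av j)) → ∀ x ∈ xs, v x = 1 := by
  induction xs with
  | nil =>
    intro _
    refine ⟨0, fun j => j.elim0, ⟨fun j => j.elim0, fun j => j.elim0⟩, ?_⟩
    intro v _ _ x hx
    simp at hx
  | cons x xs ih =>
    intro h
    obtain ⟨m1, av1, hP1, hv1⟩ := ih fun y hy => h y (List.mem_cons_of_mem _ hy)
    obtain ⟨m2, av2, hP2, hv2⟩ := h3 p K hK x (h x List.mem_cons_self)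
    obtain ⟨m, av, hP, hl⟩ := gdaMerge (List.ofFn av1 ++ List.ofFn av2) (by
      intro w hw
      rcases List.mem_append.1 hw with h1 | h1
      · obtain ⟨i, hi⟩ := List.mem_ofFn.1 h1
        rw [← hi]
        exact hP1.ntr i
      · obtain ⟨i, hi⟩ := List.mem_ofFn.1 h1
        rw [← hi]
        exact hP2.ntr i)
    refine ⟨m, av, hP, ?_⟩
    intro v hv hne y hy
    rcases List.mem_cons.1 hy with h1 | h1
    · rw [h1]
      refine hv2 v hv fun i hi => ?_
      obtain ⟨j, hj⟩ := hl (av2 i) (List.mem_append.2 (Or.inr (List.mem_ofFn.2 ⟨i, rfl⟩)))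
      exact hne j (hi.trans hj)
    · refine hv1 v hv (fun i hi => ?_) y h1
      obtain ⟨j, hj⟩ := hl (av1 i) (List.mem_append.2 (Or.inl (List.mem_ofFn.2 ⟨i, rfl⟩)))
      exact hne j (hi.trans hj)

private noncomputable def gdaNz {K : Type} [Field K] (x : K) : K := if x = 0 then 1 else x

private theorem gdaNz_ne {K : Type} [Field K] (x : K) : gdaNz x ≠ 0 := by
  unfold gdaNz
  split_ifs with h
  · exact one_ne_zero
  · exact h

private theorem gdaNz_le {K : Type} [Field K] (v : AbsoluteValue K ℝ) (x : K)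
    (h : v (gdaNz x) = 1) : v x ≤ 1 := by
  unfold gdaNz at h
  split_ifs at h with h1
  · rw [h1, map_zero]
    exact zero_le_one
  · exact h.le

theorem tGdA (h1 : S_Pw) (h2 : S_Or) (h3 : MP72P.S_Alm) : S_GdA := by
  intro p _ hp K _ _ hK W hW hOd
  obtain ⟨⟨A, Ps, hPs⟩, huniq⟩ := h1 p hp K W hW
  obtain ⟨-, -, hPs0, -, -, -, hun⟩ := huniq A Ps hPs
  have hdeg : Ps.natDegree = (p - 1) / 2 := (((h2 p hp K W hW).1 A Ps hPs).1).1 hOd
  obtain ⟨m, av, hP, hv⟩ := gdaMany h3 p K hK
    [gdaNz W.a₂, gdaNz W.a₄, gdaNz W.a₆, W.Δ, Ps.leadingCoeff] (by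
      intro x hx
      simp only [List.mem_cons, List.not_mem_nil, or_false] at hx
      rcases hx with h | h | h | h | h
      · rw [h]; exact gdaNz_ne _
      · rw [h]; exact gdaNz_ne _
      · rw [h]; exact gdaNz_ne _
      · rw [h]; exact hW.dis.ne_zero
      · rw [h]; exact leadingCoeff_ne_zero.2 hPs0)
  refine ⟨m, av, hP, ?_⟩
  intro v hnt hne
  have hall := hv v hnt hne
  refine ⟨gdaNz_le v _ (hall _ (by simp)), gdaNz_le v _ (hall _ (by simp)),
    gdaNz_le v _ (hall _ (by simp)), hall _ (by simp), ?_⟩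
  intro A' Ps' h'
  have hlc : v Ps.leadingCoeff = 1 := hall _ (by simp)
  rcases (hun A' Ps' h').2 with h4 | h4
  · rw [h4]
    exact ⟨hdeg, hlc⟩
  · rw [h4, natDegree_neg, leadingCoeff_neg]
    refine ⟨hdeg, ?_⟩
    rw [AbsoluteValue.map_neg]
    exact hlc

end Pool.Agent.MP72V
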