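import Pool.Agent.Lib.MP_72e2e6_nt.WP.La.Spec

/-!
# MP_72e2e6_nt, T3p, La/HpT: `hP p 1 D` is the Artin-Schreier homomorphism of `D`
-/

set_option autoImplicit false

namespace Pool.Agent.MP72V

open Polynomial WeierstrassCurve
open Pool.Agent.MP72W (pmap)
open Pool.Agent.MP72P (EqN Kvs Kgs nm op rsH hP tac GFld Pls)
open Pool.Agent

open scoped Classical

private theorem hpt_aux (h2 : MP72P.S_Has) (h3 : MP72P.S_Sep) (p : ℕ) [Fact p.Prime] (k : Type)
    [Field k] [CharP k p] (D : k) : IsTh p D (hP p (1 : SeparableClosure k) D) ∧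
      ∀ σ τ : Gal(SeparableClosure k/k),
        hP p (1 : SeparableClosure k) D (σ * τ) = hP p (1 : SeparableClosure k) D σ + hP p 1 D τ := by
  have e1 : (1 : SeparableClosure k) ^ (p - 1) = algebraMap k (SeparableClosure k) 1 := by
    rw [one_pow, map_one]
  obtain ⟨-, s2, -⟩ := h3 p k 1 1 one_ne_zero e1
  obtain ⟨-, -, a3, -, -, a6⟩ := h2 p k (SeparableClosure k) 1 1 one_ne_zero e1
  obtain ⟨x₀, hx₀⟩ := s2 (algebraMap k (SeparableClosure k) D)
  rw [e1] at hx₀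
  obtain ⟨hc, x, hx, hg⟩ := a3 D ⟨x₀, hx₀⟩
  refine ⟨⟨x, ?_, fun g => ?_⟩, fun σ τ => ?_⟩
  · unfold MP72P.Ph at hx
    rwa [map_one, one_mul] at hx
  · rw [hg g, mul_one]
  · have h := hc.mul σ τ
    simp only [a6, one_mul] at h
    exact h

/-- **HpT**. `hP p 1 D` is the Artin-Schreier homomorphism of `D`; it is additive. -/
theorem tHpT (h1 : MP72P.S_Lc1) (h2 : MP72P.S_Has) (h3 : MP72P.S_Sep) : S_HpT := by
  intro p _ K _ _
  refine ⟨fun D => hpt_aux h2 h3 p K D, fun v Q ϖ R hLF D => ?_⟩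
  obtain ⟨-, -, -, -, -, -, l7, -⟩ := h1 p K v Q ϖ R hLF
  exact hpt_aux h2 h3 p v.Completion D

end Pool.Agent.MP72V
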