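import Pool.Agent.Lib.MP_72e2e6_nt.WP.La.Spec

/-!
# MP_72e2e6_nt, theorem T3 for odd characteristic, block La: LoT (helper69)
-/

namespace Pool.Agent.MP72V

set_option autoImplicit false

open Polynomial WeierstrassCurve
open Pool.Agent.MP72W (pmap)
open Pool.Agent.MP72P (EqN Kvs Kgs nm op rsH hP tac GFld Pls)
open Pool.Agent

open scoped Classical

/-- if the Artin-Schreier homomorphism is zero then the root is rational -/
private theorem lot_ne {p : ℕ} [Fact p.Prime] {S L : Type} [Field S] [Field L] [Algebra S L]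
    [IsGalois S L] {D : S} {h : Gal(L/S) → ZMod p} (hh : IsTh p D h) (h0 : ∀ g, h g = 0) :
    ∃ y : S, D = y ^ p - y := by
  obtain ⟨θ, h1, h2⟩ := hh
  have h3 : ∀ g : Gal(L/S), g θ = θ := by
    intro g
    rw [h2, h0 g]
    unfold op
    rw [ZMod.val_zero, Nat.cast_zero, add_zero]
  obtain ⟨y, hy⟩ := (InfiniteGalois.mem_range_algebraMap_iff_fixed θ).2 h3
  refine ⟨y, ?_⟩
  apply (algebraMap S L).injective
  rw [← h1, map_sub, map_pow, hy]

theorem tLoT (h1 : S_HpT) (h2 : S_Deep) : S_LoT := by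
  intro p _ hp K _ _ W hW hOd v Q ϖ R hLF k T0 hT0 hpT0
  obtain ⟨M, hM, hD⟩ := h2 p hp K W hW hOd v Q ϖ R hLF k T0 hT0 hpT0
  refine ⟨M, hM, fun D hDM => ⟨?_, fun e he hfix => ?_⟩⟩
  · by_contra hcon
    push Not at hcon
    obtain ⟨y, hy⟩ := lot_ne ((h1 p K).2 v Q ϖ R hLF D).1 hcon
    have h3 := hDM y
    rw [← hy, sub_self, norm_zero] at h3
    linarith
  · obtain ⟨m, u, u1, u2, u3, u4, u5⟩ := hD D (hP p (1 : Kvs v) D)
      ((h1 p K).2 v Q ϖ R hLF D).1 hDM e he (fun g i => (congrFun (hfix g) i).symm)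
    exact ⟨m, u, u1, u2, u3, fun g => funext fun i => (u4 g i).symm, u5⟩

end Pool.Agent.MP72V
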