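import Pool.Agent.Lib.MP_72e2e6_nt.WP.Lo.Spec
import Pool.Agent.Lib.MP_72e2e6_nt.P3.E.Defs
import Pool.Agent.Lib.MP_72e2e6_nt.P3.N.Spec

/-!
# MP_72e2e6_nt, theorem T3 for odd characteristic, block La (the results of the blocks El, Fd, Lo in
the notation of `P3/E`)

The proofs are complete in the docstrings; every module is independent (used statements are
hypotheses): file `WP/La/<Name>.lean` (import this file only) with `theorem t<Name> : S_<Name>` or
`theorem t<Name> (h1 : S_X) (h2 : S_Y) .. : S_<Name>` (in the order of the docstring), namespace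
`Pool.Agent.MP72V`, other declarations `private`. Use `open scoped Classical`. Statements of `P3` are
written `MP72P.S_X` (namespace `Pool.Agent.MP72P`; `open Pool.Agent`).
-/

namespace Pool.Agent.MP72V

open Polynomial WeierstrassCurve
open Pool.Agent.MP72W (pmap)
open Pool.Agent.MP72P (EqN Kvs Kgs nm op rsH hP tac GFld Pls)
open Pool.Agent

open scoped Classical

/-- **HpT** (100 lines, uses `MP72P.S_Lc1`, `MP72P.S_Has`, `MP72P.S_Sep`). `hP p 1 D` is the Artin-Schreier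
homomorphism of `D`; it is additive.

Proof. `MP72P.S_Has` (3) with `α = 1`, `h = 1` (`Ph p 1 x = x ^ p - 1 * x`); the root exists by `MP72P.S_Sep` (2).
`CharP v.Completion p`: `MP72P.S_Lc1` (7). Additivity: `g g' θ = g (θ + h g') = θ + h g + h g'`. -/
def S_HpT : Prop :=
  ∀ (p : ℕ) [Fact p.Prime] (K : Type) [Field K] [CharP K p],
    (∀ D : K, IsTh p D (hP p (1 : Kgs K) D) ∧
      ∀ σ τ : Gal(Kgs K/K), hP p (1 : Kgs K) D (σ * τ) = hP p (1 : Kgs K) D σ + hP p 1 D τ) ∧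
    ∀ (v : AbsoluteValue K ℝ) (Q : ℕ) (ϖ : K) (R : Finset K), MP72P.LF v p Q ϖ R →
      ∀ D : v.Completion, IsTh p D (hP p (1 : Kvs v) D) ∧
        ∀ σ τ : Gal(Kvs v/v.Completion),
          hP p (1 : Kvs v) D (σ * τ) = hP p (1 : Kvs v) D σ + hP p 1 D τ

/-- **GdA** (200 lines, uses `S_Pw`, `S_Or`, `MP72P.S_Alm`). Almost all places are places of good ordinary
reduction.

Proof. `A, Ps` as in `S_Pw`; `natDegree Ps = (p - 1) / 2` by `S_Or`. For each of the elements `a₂, a₄, a₆, Δ`, the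
leading coefficient of `Ps` which is not `0` (`Δ ≠ 0`, `Ps ≠ 0`) let `av` be as in `MP72P.S_Alm`. Let `T` be the finite
set of all these absolute values, and choose a subset of representatives modulo equivalence: a finite
family with `Pls`, and a nontrivial `v` which is not equivalent to a member is not equivalent to an element
of `T`. So `v x = 1` for the nonzero elements above. `Gd.ps`: other `A', Ps'` are `A, ± Ps` (`S_Pw`). -/
def S_GdA : Prop :=
  ∀ (p : ℕ) [Fact p.Prime], p ≠ 2 → ∀ (K : Type) [Field K] [CharP K p], GFld p K →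
    ∀ W : WeierstrassCurve K, IsNf W → Od p W →
    ∃ (m : ℕ) (av : Fin m → AbsoluteValue K ℝ), Pls av ∧ ∀ v : AbsoluteValue K ℝ,
      v.IsNontrivial → (∀ j, ¬ v.IsEquiv (av j)) → Gd p W v

/-- **LoT** (80 lines, uses `S_HpT`, `S_Deep`). The local points for deeply ramified `D`.

Proof. `Twf p W h j e` is `∀ g, tac (fr p W j) (h g) g e = e` (`funext`). -/
def S_LoT : Prop :=
  ∀ (p : ℕ) [Fact p.Prime], p ≠ 2 → ∀ (K : Type) [Field K] [CharP K p]
    (W : WeierstrassCurve K), IsNf W → Od p W → ∀ (v : AbsoluteValue K ℝ) (Q : ℕ)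
    (ϖ : K) (R : Finset K), MP72P.LF v p Q ϖ R →
    ∀ (k : ℕ) (T0 : Pt p W 0 (Kvs v)), T0 ≠ 0 → p • T0 = 0 → ∃ M : ℝ, 1 < M ∧
      ∀ D : v.Completion, (∀ y : v.Completion, M ≤ ‖D - (y ^ p - y)‖) →
        (∃ g : Gal(Kvs v/v.Completion), hP p (1 : Kvs v) D g ≠ 0) ∧
        ∀ e : ZMod p → Pt p W 0 (Kvs v), ∑ i, e i = 0 →
        (∀ g : Gal(Kvs v/v.Completion), tac (fr p W 0) (hP p (1 : Kvs v) D g)
          (g : Kvs v →ₐ[v.Completion] Kvs v) e = e) →
        ∃ (m : ℕ) (u : ZMod p → Pt p W k (Kvs v)), m < p ∧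
          (m = 0 ∨ ∀ g : Gal(Kvs v/v.Completion),
            pmap (fr p W 0) (g : Kvs v →ₐ[v.Completion] Kvs v) T0 = T0) ∧
          ∑ i, u i = 0 ∧
          (∀ g : Gal(Kvs v/v.Completion), tac (fr p W k) (hP p (1 : Kvs v) D g)
            (g : Kvs v →ₐ[v.Completion] Kvs v) u = u) ∧
          ∀ i, e i = m • T0 + Vn p W k (u i)

/-- **UnT** (60 lines, uses `S_Nma`, `S_Ine`, `S_Rsd`). Preimages under `Vn` of unramified points at places
of good ordinary reduction are unramified.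

Proof. `S_Ine` with `S = v.Completion`, `a` as in `S_Nma`, `S_Rsd` (2). (`v` is nonarchimedean: `LF.na`.) -/
def S_UnT : Prop :=
  ∀ (p : ℕ) [Fact p.Prime], p ≠ 2 → ∀ (K : Type) [Field K] [CharP K p]
    (W : WeierstrassCurve K), IsNf W → ∀ (v : AbsoluteValue K ℝ) (Q : ℕ)
    (ϖ : K) (R : Finset K), MP72P.LF v p Q ϖ R → Gd p W v →
    ∀ (k : ℕ) (X : Pt p W k (Kvs v)) (g : Gal(Kvs v/v.Completion)), MP72P.IsGeo p g →
      pmap (fr p W 0) (g : Kvs v →ₐ[v.Completion] Kvs v) (Vn p W k X) = Vn p W k X →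
      pmap (fr p W k) (g : Kvs v →ₐ[v.Completion] Kvs v) X = X

/-- **RsK** (200 lines, uses `S_Bas`, `S_Nma`, `MP72P.S_Lc1`, `MP72P.S_Lc2`, `MP72P.S_Cst`, `MP72P.S_Nr`).
The field `Knr`.

Proof. `a' x = a x` for `x ∈ Knr` (`AbsoluteValue.comp`). `Rsf`: `s` the set of the constants (`MP72P.S_Nr` (4)), infinite
since it contains the `p ^ n` roots of `x ^ (p ^ n) = x` for all `n` (`MP72P.S_Cst` (7)); differences of different
constants are nonzero constants, of norm `1` (`MP72P.S_Cst` (3), `MP72P.S_Lc2` (7)). `sq`: `y ^ 2 = u` has a root in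
`Kvs v` (`p ≠ 2`, separable), and `y ∈ Knr` by `MP72P.S_Nr` (8) with `m = 2`. (3) `MP72P.S_Nr` (1). (4) The
coordinates of `P` are fixed by all `g` which fix `Knr` (`MP72P.S_Nr` (6)), so they are in `Knr`
(`InfiniteGalois.fixedField_fixingSubgroup`); `S_Bas` (last statement of (1)). -/
def S_RsK : Prop :=
  ∀ (p : ℕ) [Fact p.Prime], p ≠ 2 → ∀ (K : Type) [Field K] [CharP K p]
    (v : AbsoluteValue K ℝ) (Q : ℕ) (ϖ : K) (R : Finset K), MP72P.LF v p Q ϖ R →
    ∃ a : AbsoluteValue (MP72P.Knr p v) ℝ, (∀ x : MP72P.Knr p v, a x = nm v (x : Kvs v)) ∧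
      IsNonarchimedean a ∧ (∀ x : K, a (algebraMap K (MP72P.Knr p v) x) = v x) ∧ Rsf a ∧
      (∀ x : MP72P.Knr p v, x ≠ 0 → ∃ n : ℤ, a x = v ϖ ^ n) ∧
      ∃ _ : IsScalarTower K (MP72P.Knr p v) (Kvs v), ∀ (W : WeierstrassCurve K), IsNf W →
        ∀ P : (W⁄(Kvs v)).toAffine.Point,
        (∀ g : Gal(Kvs v/v.Completion), MP72P.IsGeo p g →
          pmap W (g : Kvs v →ₐ[v.Completion] Kvs v) P = P) →
        ∃ P₀ : (W⁄(MP72P.Knr p v)).toAffine.Point,
          pmap W (Algebra.ofId (MP72P.Knr p v) (Kvs v)) P₀ = P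

/-- **FdT** (150 lines, uses `S_Bas`, `S_It`, `S_Unw`, `S_RsK`, `S_UnT`). The values of `w` at unramified
points at places of good ordinary reduction.

Proof. `R'` is fixed by the geometric elements (`S_UnT`, `Vn R' = O`), so `R'` and `P` come from points `R₀`, `P₀` over
`Knr` (`S_RsK`); `IsR p W k R₀` (`Vn` is natural, `S_It` (6), and `pmap` is an injective homomorphism). `S_Unw`
for `L = Knr p v`, `M = Kvs v`: `r, z ∈ Knr` with `EqN (p ^ k) (w P) r`, `nm r = nm z ^ (p ^ k)`, and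
`nm z = v ϖ ^ m`; `n = p ^ k m`. -/
def S_FdT : Prop :=
  ∀ (p : ℕ) [Fact p.Prime], p ≠ 2 → ∀ (K : Type) [Field K] [CharP K p]
    (W : WeierstrassCurve K), IsNf W → ∀ (v : AbsoluteValue K ℝ) (Q : ℕ)
    (ϖ : K) (R : Finset K), MP72P.LF v p Q ϖ R → Gd p W v →
    ∀ (k : ℕ) (R' P : Pt p W k (Kvs v)), IsR p W k R' →
      (∀ g : Gal(Kvs v/v.Completion), MP72P.IsGeo p g →
        pmap (fr p W k) (g : Kvs v →ₐ[v.Completion] Kvs v) P = P) →
      ∀ w, IsWt p W k R' w → ∃ r : Kvs v, r ∈ MP72P.Knr p v ∧ r ≠ 0 ∧ EqN (p ^ k) (w P) r ∧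
        ∃ n : ℤ, nm v r = v ϖ ^ n ∧ ((p ^ k : ℕ) : ℤ) ∣ n

end Pool.Agent.MP72V
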