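import Pool.Agent.Lib.MP_72e2e6_nt.P3.F.Ifc
import Pool.Agent.Lib.MP_72e2e6_nt.WP.La.Spec

/-!
# MP_72e2e6_nt, theorem T3 for odd characteristic, block La: the local points for deeply ramified `D`
(`S_LoW` of `P3/F/Ifc`)
-/

namespace Pool.Agent.MP72P

open WeierstrassCurve
open Pool.Agent.MP72W (pmap)
open Pool.Agent.MP72V

open scoped Classical

theorem tLoW (h1 : MP72V.S_Fr) (h2 : MP72V.S_Vh) (h3 : MP72V.S_LoT) (h4 : S_Dsc) : S_LoW := by
  intro p _ hp2 K _ _ hK W hW hOd v hv k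
  obtain ⟨Q₀, ϖ, R, hLF⟩ := h4 p K hK v hv
  have hinst : ∀ (L : Type) [Field L] [Algebra K L] [inst : DecidableEq L],
      {T0 : Pt p W 0 L | p • T0 = 0}.Finite := by
    intro L _ _ inst
    obtain rfl : inst = fun a b => Classical.propDecidable (a = b) := Subsingleton.elim _ _
    obtain ⟨-, -, -, hinj, -, -⟩ := h1 p hp2 K W hW 0 L
    obtain ⟨-, -, hVF, -, -, hfin, -⟩ := h2 p hp2 K W hW 0 L
    refine Set.Finite.of_finite_image (f := Fi p W 0) (hfin.subset ?_)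
      (fun a _ b _ hab => hinj a b hab)
    rintro _ ⟨T0, hT, rfl⟩
    exact (hVF T0).trans hT
  have hq : ∀ (L : Type) [Field L] [Algebra K L] [inst : DecidableEq L] (Q : Pt p W k L),
      IsQ p W k Q → Vn p W k Q ≠ 0 ∧ p • Vn p W k Q = 0 := by
    intro L _ _ inst
    obtain rfl : inst = fun a b => Classical.propDecidable (a = b) := Subsingleton.elim _ _
    exact fun Q hQ => hQ
  have hfin := hinst (Kvs v)
  have hex : ∀ T0 : Pt p W 0 (Kvs v), ∃ M : ℝ, T0 ≠ 0 → p • T0 = 0 →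
      ∀ D : v.Completion, (∀ y : v.Completion, M ≤ ‖D - (y ^ p - y)‖) →
        ∀ e : ZMod p → Pt p W 0 (Kvs v), ∑ i, e i = 0 →
        (∀ g : Gal(Kvs v/v.Completion), tac (fr p W 0) (hP p (1 : Kvs v) D g)
          (g : Kvs v →ₐ[v.Completion] Kvs v) e = e) →
        ∃ (m : ℕ) (u : ZMod p → Pt p W k (Kvs v)), m < p ∧
          (m = 0 ∨ ∀ g : Gal(Kvs v/v.Completion),
            pmap (fr p W 0) (g : Kvs v →ₐ[v.Completion] Kvs v) T0 = T0) ∧
          ∑ i, u i = 0 ∧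
          (∀ g : Gal(Kvs v/v.Completion), tac (fr p W k) (hP p (1 : Kvs v) D g)
            (g : Kvs v →ₐ[v.Completion] Kvs v) u = u) ∧
          ∀ i, e i = m • T0 + Vn p W k (u i) := by
    intro T0
    by_cases hT : T0 ≠ 0 ∧ p • T0 = 0
    · obtain ⟨M, -, hM⟩ := h3 p hp2 K W hW hOd v Q₀ ϖ R hLF k T0 hT.1 hT.2
      exact ⟨M, fun _ _ D hD => (hM D hD).2⟩
    · exact ⟨0, fun ha hb => absurd ⟨ha, hb⟩ hT⟩
  choose M hM using hex
  obtain ⟨B, hB⟩ := (hfin.image M).bddAbove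
  refine ⟨B, ?_⟩
  intro D hD Q hQ' e he0 he
  have hQ := hq (Kvs v) Q hQ'
  obtain ⟨m, u, -, -, hu0, hu, heu⟩ := hM (Vn p W k Q) hQ.1 hQ.2 (algebraMap K v.Completion D)
    (fun y => (hB ⟨Vn p W k Q, hQ.2, rfl⟩).trans (hD y)) e he0 he
  refine ⟨(m : ℤ), u, hu0, hu, ?_⟩
  intro l
  rw [natCast_zsmul]
  exact heu l

end Pool.Agent.MP72P
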