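import Pool.Agent.Lib.MP_72e2e6_nt.WP.La.Spec

/-!
# MP_72e2e6_nt, theorem T3 for odd characteristic, block La: the field `Knr`
-/

namespace Pool.Agent.MP72V

open Polynomial WeierstrassCurve
open Pool.Agent.MP72W (pmap)
open Pool.Agent.MP72P (EqN Kvs Kgs nm op rsH hP tac GFld Pls)
open Pool.Agent

open scoped Classical

private theorem rskCst {p : ℕ} [Fact p.Prime] {L : Type} [Field L]
    (h : ∀ n, 1 ≤ n → {x : L | x ^ p ^ n = x}.ncard = p ^ n) : (MP72P.Cst p L).Infinite := by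
  intro hfin
  have h1 : ∀ n, 1 ≤ n → p ^ n ≤ (MP72P.Cst p L).ncard := by
    intro n hn
    rw [← h n hn]
    exact Set.ncard_le_ncard (fun x hx => ⟨n, hn, hx⟩) hfin
  have hp : 1 < p := (Fact.out : p.Prime).one_lt
  have h2 := h1 ((MP72P.Cst p L).ncard + 1) (Nat.le_add_left _ _)
  have h3 : (MP72P.Cst p L).ncard + 1 < p ^ ((MP72P.Cst p L).ncard + 1) := Nat.lt_pow_self hp
  omega

theorem tRsK (h1 : S_Bas) (h2 : S_Nma) (_h3 : MP72P.S_Lc1) (h4 : MP72P.S_Lc2) (h5 : MP72P.S_Cst)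
    (h6 : MP72P.S_Nr) : S_RsK := by
  intro p _ hp2 K _ _ v Q ϖ R hLF
  obtain ⟨b, hb, hbna, hbK, hbg⟩ := h2 p K v Q ϖ R hLF
  obtain ⟨-, -, -, -, -, -, c1, -, -, hch⟩ := h4 p K v Q ϖ R hLF
  obtain ⟨r1, -, -, r4, -, r6, -, r8, -⟩ := h6 p K v Q ϖ R hLF
  obtain ⟨-, -, k3, -, -, -, k7, -⟩ := h5 p (Kvs v)
  have hpp : p.Prime := Fact.out
  have h2K : (2 : K) ≠ 0 := by
    intro h
    have h' : ((2 : ℕ) : K) = 0 := by exact_mod_cast h
    have := (CharP.cast_eq_zero_iff K p 2).1 h'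
    exact hp2 ((Nat.prime_dvd_prime_iff_eq hpp Nat.prime_two).1 this)
  have h2L : (2 : Kvs v) ≠ 0 := by
    intro h
    have h' : ((2 : ℕ) : Kvs v) = 0 := by exact_mod_cast h
    have := (CharP.cast_eq_zero_iff (Kvs v) p 2).1 h'
    exact hp2 ((Nat.prime_dvd_prime_iff_eq hpp Nat.prime_two).1 this)
  have hinj : Function.Injective (algebraMap (MP72P.Knr p v) (Kvs v)) :=
    (algebraMap (MP72P.Knr p v) (Kvs v)).injective
  let a : AbsoluteValue (MP72P.Knr p v) ℝ := b.comp hinj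
  have ha : ∀ x : MP72P.Knr p v, a x = nm v (x : Kvs v) := fun x => hb _
  have hst : IsScalarTower K (MP72P.Knr p v) (Kvs v) := IsScalarTower.of_algebraMap_eq fun x => rfl
  refine ⟨a, ha, fun x y => hbna _ _, fun x => hbK x, ⟨?_, ?_⟩, ?_, hst, ?_⟩
  · refine ⟨{x | (x : Kvs v) ∈ MP72P.Cst p (Kvs v)}, ?_, ?_, ?_⟩
    · have hinf := rskCst k7
      apply Set.Infinite.of_image (fun x : MP72P.Knr p v => (x : Kvs v))
      have himg : (fun x : MP72P.Knr p v => (x : Kvs v)) ''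
          {x | (x : Kvs v) ∈ MP72P.Cst p (Kvs v)} = MP72P.Cst p (Kvs v) := by
        ext x
        constructor
        · rintro ⟨y, hy, rfl⟩
          exact hy
        · intro hx
          exact ⟨⟨x, r4 x hx⟩, hx, rfl⟩
      rw [himg]
      exact hinf
    · intro x hx
      rw [ha]
      by_cases h0 : (x : Kvs v) = 0
      · rw [h0, ← hb, map_zero]
        exact zero_le_one
      · exact (c1 _ hx h0).le
    · intro x hx y hy hxy
      rw [ha]
      apply c1
      · exact (k3 _ hx _ hy).2.2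
      · intro h0
        apply hxy
        rw [← sub_eq_zero]
        exact Subtype.ext h0
  · intro u hu
    have : NeZero ((2 : ℕ) : Kvs v) := ⟨by exact_mod_cast h2L⟩
    obtain ⟨y, hy⟩ := IsSepClosed.exists_pow_nat_eq (u : Kvs v) 2
    have hu' : nm v (u : Kvs v) = 1 := by rw [← ha]; exact hu
    have hnd : ¬ p ∣ 2 := fun h => hp2 ((Nat.prime_dvd_prime_iff_eq hpp Nat.prime_two).1 h)
    exact ⟨⟨y, r8 _ y 2 u.2 hu' hnd hy⟩, Subtype.ext hy⟩
  · intro x hx
    rw [ha]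
    exact r1 _ x.2 fun h0 => hx (Subtype.ext h0)
  · intro W hW P hP
    obtain ⟨-, -, -, -, -, hB⟩ := h1.1 K h2K W hW (Kvs v)
    obtain ⟨-, -, -, -, -, hC⟩ := h1.1 K h2K W hW (MP72P.Knr p v)
    have hfix : ∀ x : Kvs v, (∀ g : Gal(Kvs v/v.Completion), MP72P.IsGeo p g → g x = x) →
        x ∈ MP72P.Knr p v := by
      intro x hx
      rw [← InfiniteGalois.fixedField_fixingSubgroup (MP72P.Knr p v),
        IntermediateField.mem_fixedField_iff]
      intro g hg
      apply hx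
      rw [r6]
      intro y hy
      exact (IntermediateField.mem_fixingSubgroup_iff _ _).1 hg y hy
    obtain ⟨-, -, -, hD⟩ := hC (MP72P.Knr p v) (Kvs v) (Algebra.ofId (MP72P.Knr p v) (Kvs v))
    cases P with
    | zero => exact ⟨0, rfl⟩
    | some x y h =>
      have hx : x ∈ MP72P.Knr p v := by
        apply hfix
        intro g hg
        obtain ⟨-, -, hE, -⟩ := hB v.Completion (Kvs v) (g : Kvs v →ₐ[v.Completion] Kvs v)
        have h7 := (hE (.some x y h)).1
        rw [hP g hg] at h7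
        exact h7.symm
      have hy : y ∈ MP72P.Knr p v := by
        apply hfix
        intro g hg
        obtain ⟨-, -, hE, -⟩ := hB v.Completion (Kvs v) (g : Kvs v →ₐ[v.Completion] Kvs v)
        have h7 := (hE (.some x y h)).2
        rw [hP g hg] at h7
        exact h7.symm
      obtain ⟨P₁, -, hP₁⟩ := hD (.some x y h) ⟨x, hx⟩ ⟨y, hy⟩ ⟨h, rfl⟩
      exact ⟨P₁, hP₁⟩

end Pool.Agent.MP72V
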