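import Pool.Agent.Lib.MP_72e2e6_nt.P3.F.Ifc
import Pool.Agent.Lib.MP_72e2e6_nt.WP.La.Spec

/-!
# MP_72e2e6_nt, theorem T3 for odd characteristic, block La: outside a finite set of places everything is
unramified (`S_UnW` of `P3/F/Ifc`)
-/

namespace Pool.Agent.MP72P

open WeierstrassCurve
open Pool.Agent.MP72W (pmap)
open Pool.Agent.MP72V

open scoped Classical

theorem tUnW (h1 : MP72V.S_GdA) (h2 : MP72V.S_UnT) (h3 : MP72V.S_FdT) (h4 : S_Dsc) : S_UnW := by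
  intro p _ hp2 K _ _ hK W hW hOd
  obtain ⟨m, av₀, hP, hgd⟩ := h1 p hp2 K hK W hW hOd
  refine ⟨m, av₀, hP.ntr, ?_⟩
  intro J av hj k
  have key : ∀ v : AbsoluteValue K ℝ, v.IsNontrivial → (∀ j, ¬ v.IsEquiv (av j)) →
      MP72V.Gd p W v := by
    intro v hv hne
    refine hgd v hv ?_
    intro i hi
    obtain ⟨j, hj⟩ := hj i
    exact hne j (hi.trans hj.symm)
  constructor
  · intro v hv hne X hX g hg
    obtain ⟨Q, ϖ, R, hLF⟩ := h4 p K hK v hv
    exact h2 p hp2 K W hW v Q ϖ R hLF (key v hv hne) k X g hg (hX g hg)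
  · intro v hv hne Q ϖ R₀ hLF R hR w hw P hP'
    obtain ⟨r, hr, hr0, he, n, hn, hd⟩ :=
      h3 p hp2 K W hW v Q ϖ R₀ hLF (key v hv hne) k R P hR hP' w hw
    exact ⟨r, hr, hr0, he, n, hn, by simpa using hd⟩

end Pool.Agent.MP72P
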