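import Pool.Agent.Lib.MP_72e2e6_nt.WP.La.Spec

/-!
# MP_72e2e6_nt, theorem T3 for odd characteristic, block La: UnT (helper69)
-/

namespace Pool.Agent.MP72V

set_option autoImplicit false

open Polynomial WeierstrassCurve
open Pool.Agent.MP72W (pmap)
open Pool.Agent.MP72P (EqN Kvs Kgs nm op rsH hP tac GFld Pls)
open Pool.Agent

open scoped Classical

theorem tUnT (h1 : S_Nma) (h2 : S_Ine) (h3 : S_Rsd) : S_UnT := by
  intro p _ hp K _ _ W hW v Q ϖ R hLF hGd k X g hg hX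
  obtain ⟨a, a1, a2, a3, a4⟩ := h1 p K v Q ϖ R hLF
  refine h2 p hp K W hW v hLF.na hGd (Kvs v) a a2 a3 v.Completion
    (g : Kvs v →ₐ[v.Completion] Kvs v) (fun z => a4 g z) (fun z hz => ?_) k X hX
  have h5 := (h3 p K v Q ϖ R hLF).2.1 g hg z (by rw [← a1]; exact hz)
  rw [a1]
  exact h5

end Pool.Agent.MP72V
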